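import Pool.Agent.Lib.MP_afdd4d_co.K9.PE.R9

/-!
# The automorphisms of type 9
-/

namespace Pool.Agent.Lib.MP_afdd4d_co.K9.PE

open K8 W6
open Pool.Agent.Lib.MP_afdd4d_co.K9.Star

set_option maxRecDepth 100000
set_option exponentiation.threshold 10000000

theorem au6 (D : C4D) (h : D.W = 32) : D.auG R9 0x2310 false = true := by
  unfold C4D.auG
  rw [h]
  decide +kernel

theorem au7 (D : C4D) (h : D.W = 32) : D.auG R9 0x3210 false = true := by
  unfold C4D.auG
  rw [h]
  decide +kernel

theorem au8 (D : C4D) (h : D.W = 32) : D.auG R9 0x3201 false = true := by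
  unfold C4D.auG
  rw [h]
  decide +kernel

end Pool.Agent.Lib.MP_afdd4d_co.K9.PE
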