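import Pool.Agent.Lib.MP_afdd4d_co.K9.PE.Row

/-!
# The checks of the representatives, part 0
-/

namespace Pool.Agent.Lib.MP_afdd4d_co.K9.PE

theorem ck0 : C.ck R D 0 = true := by decide +kernel

theorem ck1 : C.ck R D 1 = true := by decide +kernel

theorem ck2 : C.ck R D 2 = true := by decide +kernel

theorem ck3 : C.ck R D 3 = true := by decide +kernel

end Pool.Agent.Lib.MP_afdd4d_co.K9.PE
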