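import Pool.Agent.Lib.MP_afdd4d_co.K9.PE.Row

/-!
# The checks of the representatives, part 1
-/

namespace Pool.Agent.Lib.MP_afdd4d_co.K9.PE

theorem ck4 : C.ck R D 4 = true := by decide +kernel

theorem ck5 : C.ck R D 5 = true := by decide +kernel

theorem ck6 : C.ck R D 6 = true := by decide +kernel

theorem ck7 : C.ck R D 7 = true := by decide +kernel

end Pool.Agent.Lib.MP_afdd4d_co.K9.PE
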