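import Pool.Agent.Lib.MP_afdd4d_co.K9.PE.Row

/-!
# The checks of the representatives, part 12
-/

namespace Pool.Agent.Lib.MP_afdd4d_co.K9.PE

theorem ck48 : C.ck R D 48 = true := by decide +kernel

theorem ck49 : C.ck R D 49 = true := by decide +kernel

theorem ck50 : C.ck R D 50 = true := by decide +kernel

theorem ck51 : C.ck R D 51 = true := by decide +kernel

end Pool.Agent.Lib.MP_afdd4d_co.K9.PE
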