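import Pool.Agent.Lib.MP_afdd4d_co.K9.PE.Row

/-!
# The checks of the representatives, part 13
-/

namespace Pool.Agent.Lib.MP_afdd4d_co.K9.PE

theorem ck52 : C.ck R D 52 = true := by decide +kernel

theorem ck53 : C.ck R D 53 = true := by decide +kernel

theorem ck54 : C.ck R D 54 = true := by decide +kernel

theorem ck55 : C.ck R D 55 = true := by decide +kernel

end Pool.Agent.Lib.MP_afdd4d_co.K9.PE
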