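import Pool.Agent.Lib.MP_afdd4d_co.K9.PE.Row

/-!
# The checks of the representatives, part 17
-/

namespace Pool.Agent.Lib.MP_afdd4d_co.K9.PE

theorem ck68 : C.ck R D 68 = true := by decide +kernel

theorem ck69 : C.ck R D 69 = true := by decide +kernel

theorem ck70 : C.ck R D 70 = true := by decide +kernel

theorem ck71 : C.ck R D 71 = true := by decide +kernel

end Pool.Agent.Lib.MP_afdd4d_co.K9.PE
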