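import Pool.Agent.Lib.MP_afdd4d_co.K9.PE.Row

/-!
# The checks of the representatives, part 28
-/

namespace Pool.Agent.Lib.MP_afdd4d_co.K9.PE

theorem ck112 : C.ck R D 112 = true := by decide +kernel

theorem ck113 : C.ck R D 113 = true := by decide +kernel

theorem ck114 : C.ck R D 114 = true := by decide +kernel

theorem ck115 : C.ck R D 115 = true := by decide +kernel

end Pool.Agent.Lib.MP_afdd4d_co.K9.PE
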