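import Pool.Agent.Lib.MP_afdd4d_co.K9.PE.Row

/-!
# The checks of the representatives, part 30
-/

namespace Pool.Agent.Lib.MP_afdd4d_co.K9.PE

theorem ck120 : C.ck R D 120 = true := by decide +kernel

theorem ck121 : C.ck R D 121 = true := by decide +kernel

theorem ck122 : C.ck R D 122 = true := by decide +kernel

theorem ck123 : C.ck R D 123 = true := by decide +kernel

end Pool.Agent.Lib.MP_afdd4d_co.K9.PE
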