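import Pool.Agent.Lib.MP_afdd4d_co.K9.PE.Row

/-!
# The checks of the representatives, part 33
-/

namespace Pool.Agent.Lib.MP_afdd4d_co.K9.PE

theorem ck132 : C.ck R D 132 = true := by decide +kernel

theorem ck133 : C.ck R D 133 = true := by decide +kernel

theorem ck134 : C.ck R D 134 = true := by decide +kernel

theorem ck135 : C.ck R D 135 = true := by decide +kernel

end Pool.Agent.Lib.MP_afdd4d_co.K9.PE
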