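import Pool.Agent.Lib.MP_afdd4d_co.K9.PE.Row

/-!
# The checks of the representatives, part 5
-/

namespace Pool.Agent.Lib.MP_afdd4d_co.K9.PE

theorem ck20 : C.ck R D 20 = true := by decide +kernel

theorem ck21 : C.ck R D 21 = true := by decide +kernel

theorem ck22 : C.ck R D 22 = true := by decide +kernel

theorem ck23 : C.ck R D 23 = true := by decide +kernel

end Pool.Agent.Lib.MP_afdd4d_co.K9.PE
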