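import Pool.Agent.Lib.MP_afdd4d_co.K9.PE.Row

/-!
# The checks of the representatives, part 9
-/

namespace Pool.Agent.Lib.MP_afdd4d_co.K9.PE

theorem ck36 : C.ck R D 36 = true := by decide +kernel

theorem ck37 : C.ck R D 37 = true := by decide +kernel

theorem ck38 : C.ck R D 38 = true := by decide +kernel

theorem ck39 : C.ck R D 39 = true := by decide +kernel

end Pool.Agent.Lib.MP_afdd4d_co.K9.PE
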