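import Pool.Agent.Lib.MP_afdd4d_co.K9.PE.B1
import Pool.Agent.Lib.MP_afdd4d_co.K9.PE.B2
import Pool.Agent.Lib.MP_afdd4d_co.K9.PE.B3
import Pool.Agent.Lib.MP_afdd4d_co.K9.PE.B4
import Pool.Agent.Lib.MP_afdd4d_co.K9.PE.B5
import Pool.Agent.Lib.MP_afdd4d_co.K9.PE.B6
import Pool.Agent.Lib.MP_afdd4d_co.K9.PE.B7
import Pool.Agent.Lib.MP_afdd4d_co.K9.PE.B8
import Pool.Agent.Lib.MP_afdd4d_co.K9.PE.B9
import Pool.Agent.Lib.MP_afdd4d_co.K9.PE.B10
import Pool.Agent.Lib.MP_afdd4d_co.K9.PE.B11
import Pool.Agent.Lib.MP_afdd4d_co.K9.PE.B12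
import Pool.Agent.Lib.MP_afdd4d_co.K9.PE.N

/-!
# The data
-/

namespace Pool.Agent.Lib.MP_afdd4d_co.K9.PE

open K8 W6
open Pool.Agent.Lib.MP_afdd4d_co.K9.Star

set_option maxRecDepth 100000
set_option exponentiation.threshold 10000000

/-- The data of the kernels with four roots. -/
noncomputable def D : C4D where
  W := 32
  of := 4194304
  R := [[], R1, R2, R3, R4, R5, R6, R7, R8, R9, R10, R11, R12]
  ty := 0x408080c080c0c08080c0c080c0808040206060a060a0a06060a0a060a0606020307070b070b0b07070b0b070b07070301050509050909050509090509050501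
  od := 0x3210321023101032132020313021032103212130312013203210231032103210321032102310103213202031302103210321213031201320321023103210321032103210231010321320203130210321032121303120132032102310321032103210321023101032132020313021032103212130312013203210231032103210
  fl := 0x1010100010000000100000000000000010101000100000001000000000000000101010001000000010000000000000001010100010000000100000000000000

/-- The data of the rows. -/
noncomputable def R : RD where
  W := 32
  Bk := [[], Bk1, Bk2, Bk3, Bk4, Bk5, Bk6, Bk7, Bk8, Bk9, Bk10, Bk11, Bk12]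
  T2 := T2
  F5 := F5
  U5 := U5

end Pool.Agent.Lib.MP_afdd4d_co.K9.PE
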