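import Pool.Agent.Lib.MP_afdd4d_co.K9.PE.Dat
import Pool.Agent.Lib.MP_afdd4d_co.K9.PE.P1
import Pool.Agent.Lib.MP_afdd4d_co.K9.PE.P2
import Pool.Agent.Lib.MP_afdd4d_co.K9.PE.P3
import Pool.Agent.Lib.MP_afdd4d_co.K9.PE.P4
import Pool.Agent.Lib.MP_afdd4d_co.K9.PE.P5
import Pool.Agent.Lib.MP_afdd4d_co.K9.PE.P6
import Pool.Agent.Lib.MP_afdd4d_co.K9.PE.P7
import Pool.Agent.Lib.MP_afdd4d_co.K9.PE.P8
import Pool.Agent.Lib.MP_afdd4d_co.K9.PE.P9
import Pool.Agent.Lib.MP_afdd4d_co.K9.PE.P10
import Pool.Agent.Lib.MP_afdd4d_co.K9.PE.P11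
import Pool.Agent.Lib.MP_afdd4d_co.K9.PE.P12
import Pool.Agent.Lib.MP_afdd4d_co.K9.PE.A1
import Pool.Agent.Lib.MP_afdd4d_co.K9.PE.A2
import Pool.Agent.Lib.MP_afdd4d_co.K9.PE.A3
import Pool.Agent.Lib.MP_afdd4d_co.K9.PE.A4
import Pool.Agent.Lib.MP_afdd4d_co.K9.PE.A5
import Pool.Agent.Lib.MP_afdd4d_co.K9.PE.A6
import Pool.Agent.Lib.MP_afdd4d_co.K9.PE.A7
import Pool.Agent.Lib.MP_afdd4d_co.K9.PE.A8
import Pool.Agent.Lib.MP_afdd4d_co.K9.PE.A9
import Pool.Agent.Lib.MP_afdd4d_co.K9.PE.A10
import Pool.Agent.Lib.MP_afdd4d_co.K9.PE.A11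
import Pool.Agent.Lib.MP_afdd4d_co.K9.PE.A12

/-!
# The conditions on the data
-/

namespace Pool.Agent.Lib.MP_afdd4d_co.K9.PE

open K8 W6
open Pool.Agent.Lib.MP_afdd4d_co.K9.Star

set_option maxRecDepth 100000
set_option exponentiation.threshold 10000000

/-- The factorisations. -/
noncomputable def PF (τ : ℕ) : PD := match τ with
  | 1 => Fk1
  | 2 => Fk2
  | 3 => Fk3
  | 4 => Fk4
  | 5 => Fk5
  | 6 => Fk6
  | 7 => Fk7
  | 8 => Fk8
  | 9 => Fk9
  | 10 => Fk10
  | 11 => Fk11
  | _ => Fk12

theorem dOK : D.OK := by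
  refine C4D.ok_of (a := 22) PF (by decide +kernel) fun τ h0 h1 => ?_
  have h2 : τ < 13 := h1
  interval_cases τ
  · exact ⟨rw1, pd1⟩
  · exact ⟨rw2, pd2⟩
  · exact ⟨rw3, pd3⟩
  · exact ⟨rw4, pd4⟩
  · exact ⟨rw5, pd5⟩
  · exact ⟨rw6, pd6⟩
  · exact ⟨rw7, pd7⟩
  · exact ⟨rw8, pd8⟩
  · exact ⟨rw9, pd9⟩
  · exact ⟨rw10, pd10⟩
  · exact ⟨rw11, pd11⟩
  · exact ⟨rw12, pd12⟩

/-- The factorisations of the small matrices. -/
noncomputable def PN (τ : ℕ) : PD := match τ with
  | 0 => FN0
  | 1 => FN1
  | 2 => FN2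
  | _ => FN3

theorem bOK : B.OK := by
  refine B2.ok_of (a := 19) PN rwB (fun τ hτ => ?_) pdN3
  interval_cases τ
  · exact pdN0
  · exact pdN1
  · exact pdN2

/-- The automorphisms. -/
def AL : List (ℕ × (ℕ × Bool)) := [
    (1, (0x2310, false)), (1, (0x3120, false)), (1, (0x3201, false)), (5, (0x3210, false)),
    (5, (0x3120, false)), (5, (0x3201, false)), (9, (0x2310, false)), (9, (0x3210, false)),
    (9, (0x3201, false)), (3, (0x2310, false)), (3, (0x3120, false)), (3, (0x3201, false)),
    (7, (0x3210, false)), (7, (0x3120, false)), (7, (0x3201, false)), (11, (0x2310, false)),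
    (11, (0x3210, false)), (11, (0x3201, false)), (2, (0x2310, true)), (2, (0x3120, true)),
    (2, (0x3201, true)), (6, (0x3210, true)), (6, (0x3120, true)), (6, (0x3201, true)),
    (10, (0x2310, true)), (10, (0x3210, true)), (10, (0x3201, true)), (4, (0x2310, true)),
    (4, (0x3120, true)), (4, (0x3201, true)), (8, (0x3210, true)), (8, (0x3120, true)),
    (8, (0x3201, true)), (12, (0x2310, true)), (12, (0x3210, true)), (12, (0x3201, true))]

/-- The numbers of the automorphisms. -/
def LT : ℕ := 0x1d001c001b00000020001f001e00000020001e001e00000021002200230000001e001e001f000000220022002200000022002300220000001e0020001f0000001e0020001f000000220021002200000022002200220000001e001e001f000000230022002100000020001e001e00000020001f001e0000001d001c001b000000140013001200000017001600150000001700150015000000180019001a0000001500150016000000190019001900000019001a0019000000150017001600000015001700160000001900180019000000190019001900000015001500160000001a001900180000001700150015000000170016001500000014001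300120000000b000a00090000000e000d000c0000000e000c000c0000000f001000110000000c000c000d000000100010001000000010001100100000000c000e000d0000000c000e000d00000010000f001000000010001000100000000c000c000d000000110010000f0000000e000c000c0000000e000d000c0000000b000a00090000000200010000000000050004000300000005000300030000000600070008000000030003000400000007000700070000000700080007000000030005000400000003000500040000000700060007000000070007000700000003000300040000000800070006000000050003000300000005000400030000000200010000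

theorem ivC : ∀ i < 3, ∀ p < 64, D.ivG LT AL i p = true := by decide +kernel

theorem ln_of {τ : ℕ} (h0 : 0 < τ) (h1 : τ < 13) : (D.Rw τ).length = 256 := by
  have h2 := dOK
  interval_cases τ
  · exact (rowsG_spec rw1).2.1
  · exact (rowsG_spec rw2).2.1
  · exact (rowsG_spec rw3).2.1
  · exact (rowsG_spec rw4).2.1
  · exact (rowsG_spec rw5).2.1
  · exact (rowsG_spec rw6).2.1
  · exact (rowsG_spec rw7).2.1
  · exact (rowsG_spec rw8).2.1
  · exact (rowsG_spec rw9).2.1
  · exact (rowsG_spec rw10).2.1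
  · exact (rowsG_spec rw11).2.1
  · exact (rowsG_spec rw12).2.1

theorem auOK : ∀ e ∈ AL, D.Aut e.1 e.2.1 e.2.2 := by
  simp only [AL, List.forall_mem_cons]
  refine ⟨C4D.auG_spec (ln_of (by decide) (by decide)) (au0 D rfl), C4D.auG_spec (ln_of (by decide) (by decide)) (au1 D rfl), C4D.auG_spec (ln_of (by decide) (by decide)) (au2 D rfl), C4D.auG_spec (ln_of (by decide) (by decide)) (au3 D rfl), C4D.auG_spec (ln_of (by decide) (by decide)) (au4 D rfl), C4D.auG_spec (ln_of (by decide) (by decide)) (au5 D rfl), C4D.auG_spec (ln_of (by decide) (by decide)) (au6 D rfl), C4D.auG_spec (ln_of (by decide) (by decide)) (au7 D rfl), C4D.auG_spec (ln_of (by decide) (by decide)) (au8 D rfl), C4D.auG_spec (ln_of (by decide) (by decide)) (au9 D rfl), C4D.auG_spec (ln_of (by decide) (by decide)) (au10 D rfl), C4D.auG_spec (ln_of (by decide) (by decide)) (au11 D rfl), C4D.auG_spec (ln_of (by decide) (by decide)) (au12 D rfl), C4D.auG_spec (ln_of (by decide) (by decide)) (au13 D rfl), C4D.auG_spec (ln_of (by decide)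 (by decide)) (au14 D rfl), C4D.auG_spec (ln_of (by decide) (by decide)) (au15 D rfl), C4D.auG_spec (ln_of (by decide) (by decide)) (au16 D rfl), C4D.auG_spec (ln_of (by decide) (by decide)) (au17 D rfl), C4D.auG_spec (ln_of (by decide) (by decide)) (au18 D rfl), C4D.auG_spec (ln_of (by decide) (by decide)) (au19 D rfl), C4D.auG_spec (ln_of (by decide) (by decide)) (au20 D rfl), C4D.auG_spec (ln_of (by decide) (by decide)) (au21 D rfl), C4D.auG_spec (ln_of (by decide) (by decide)) (au22 D rfl), C4D.auG_spec (ln_of (by decide) (by decide)) (au23 D rfl), C4D.auG_spec (ln_of (by decide) (by decide)) (au24 D rfl), C4D.auG_spec (ln_of (by decide) (by decide)) (au25 D rfl), C4D.auG_spec (ln_of (by decide) (by decide)) (au26 D rfl), C4D.auG_spec (ln_of (by decide) (by decide)) (au27 D rfl), C4D.auG_spec (ln_of (by decide) (by decide)) (au28 D rfl), C4D.auG_spec (ln_of (by decide) (by decide)) (au29 D rfl), C4D.auG_spec (ln_of (by decide) (by decide)) (au30 D rfl), C4D.auG_spec (ln_of (by decide) (by decide))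 (au31 D rfl), C4D.auG_spec (ln_of (by decide) (by decide)) (au32 D rfl), C4D.auG_spec (ln_of (by decide) (by decide)) (au33 D rfl), C4D.auG_spec (ln_of (by decide) (by decide)) (au34 D rfl), C4D.auG_spec (ln_of (by decide) (by decide)) (au35 D rfl), ?_⟩
  exact fun _ h => absurd h List.not_mem_nil

theorem invOK : D.InvOK := C4D.ivG_spec auOK ivC

theorem rOK : R.OK D B 16777216 30 := by
  refine ok_of dOK bOK rfl (by decide) (fun τ h0 h1 => ?_) ct2 cf5 cu5 (by decide +kernel) ?_ (by decide)
  · have h2 : τ < 13 := h1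
    interval_cases τ
    · exact bk1
    · exact bk2
    · exact bk3
    · exact bk4
    · exact bk5
    · exact bk6
    · exact bk7
    · exact bk8
    · exact bk9
    · exact bk10
    · exact bk11
    · exact bk12
  · show 15 * (2 * 4194304) + 45 * (2 * 524288) + 6 * 16777216 + 2 ^ 30 < 2 ^ (32 - 1)
    norm_num

end Pool.Agent.Lib.MP_afdd4d_co.K9.PE
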