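import Pool.Agent.Lib.MP_afdd4d_co.K9.PE.Row
import Pool.Agent.Lib.MP_afdd4d_co.K9.PE.Ok
import Pool.Agent.Lib.MP_afdd4d_co.K9.PE.Cks
import Pool.Agent.Lib.MP_afdd4d_co.K9.W6G2

/-!
# 4-graphs without `K_5` whose nearest even 4-graph is a reference structure

The inequality on the windows.
-/

namespace Pool.Agent.Lib.MP_afdd4d_co.K9.PE

open Finset K8 W6
open Pool.Agent.Lib.MP_afdd4d_co.K9.Star
open Pool.Agent.Lib.MP_afdd4d_co.K9.Star.Tw

/-! ### The conditions on the data -/

theorem l0_ok : L0.OK 32 0 where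
  hP := pt6_ok
  hE := fun _ h => by cases h
  hK := fun _ h => by cases h
  hM := fun _ h => by cases h
  eE := by decide +kernel
  hu := Ug.ckU_spec (by decide) (by decide) (by decide +kernel)
  eK := by decide +kernel
  sz := by decide +kernel

theorem tot0 {n : ℕ} (H E : Finset (Finset (Fin n))) (χ : Fin n → Bool) (t : Fin 6 → Fin n) :
    L0.tot 32 H E χ t = 0 := by
  unfold LD.tot
  show (([] : List Mk).map _).sum + ((([] : List Mk).map _).sum + (([] : List Mk).map _).sum) -
    (Ug.uv 32 0 H t : ℤ) = 0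
  unfold Ug.uv
  rw [Ln_zero_left]
  rfl

theorem vX_eq (k : ℕ) (hk : k < 160) : nthG [] C.vX k = (rX k).map vJ := by
  have h : k < (((List.range 160).map fun k => (rX k).map vJ) : List (List ℕ)).length := by
    rw [List.length_map, List.length_range]
    exact hk
  show nthG [] ((List.range 160).map fun k => (rX k).map vJ) k = _
  rw [nthG_at [] _ k h, List.getElem_map, List.getElem_range]

/-! ### The terms -/

/-- The term of the differences. -/
def Yf : FunE := fun H E _ t => -(4277064 * S4 (fun T => zb H t T ^^ zb E t T))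

/-- The function of the five-sets. -/
def wf (h e : ℕ) : ℤ :=
  10842240 * ((if h = 1 then 1 else 0) + (if h = 3 then 1 else 0)) + (12582912 * h + 25165824 * e)

theorem Yf_perm {n : ℕ} (H E : Finset (Finset (Fin n))) (χ : Fin n → Bool)
    (t : Fin 6 → Fin n) (σ : Equiv.Perm (Fin 6)) : Yf H E χ (t ∘ σ) = Yf H E χ t := by
  have e1 : zb H (t ∘ σ) = fun T => zb H t (T.image σ) := by
    funext T
    exact zb_comp H t σ T
  have e2 : zb E (t ∘ σ) = fun T => zb E t (T.image σ) := by
    funext T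
    exact zb_comp E t σ T
  unfold Yf
  rw [e1, e2, S4_perm (fun T => zb H t T ^^ zb E t T) σ]

theorem hA : ∀ b < 7, 24 * (15 * (4194304 : ℤ) + 45 * 524288 + 720 * (L0.ofs : ℕ) +
    (tlO b [eO1] : ℕ)) + 6 * 176160768 + 72 * k3 B b + 0 - 64155960 ≤
      778567680 + (nthG 0 C.A b : ℕ) := by
  decide +kernel

theorem hsz : ∀ b < 7, 2 ^ 0 + (2 ^ 29 + 0 + tlU b [eO1]) ≤ 2 ^ 30 := by decide +kernel

theorem hu : ∀ h < 5, ∀ e < 6, 24 * (R.u5 h e : ℤ) + wf h e ≤ 176160768 := by decide +kernel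

theorem mlC : ∀ b < 7, ∀ e ∈ nthG [] C.mL b, okR e.2 1 = true ∧ ndG e.2 1 = 10 ∧
      syG e.2 1 0 = e.1 := gml_ok

/-- The inequality on the windows. -/
theorem rows_E (n : ℕ) (H E : Finset (Finset (Fin n))) (χ : Fin n → Bool) (hE : EvenH n E)
    (hH : K5F H) (hC : ExG n E χ) (t : Fin 6 → Fin n) (ht : Function.Injective t) :
    KS D B H E χ t + 24 * symE (eO1.f 32) H E χ t + Yf H E χ t +
      ∑ q ∈ range 6, wf (cnt H t q) (cnt E t q) ≤ 778567680 := by
  have h := RC.rows C D B R 16777216 30 0 0 dOK invOK bOK rOK l0_ok (by decide) (by decide)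
    (fun L hL => by
      have hL' : L = eO1 := List.mem_singleton.mp hL
      rw [hL']
      exact eO1_ok)
    hsz (fun n _ E χ => ExG n E χ)
    (fun _ _ => 0) (fun b _ => ar_zero 10) (fun _ _ _ => le_rfl)
    (fun _ _ _ _ => 0) (fun _ _ _ _ _ => rfl) (fun _ => 0)
    (fun b _ n H E χ _ _ t _ _ => by norm_num)
    Yf Yf_perm 64155960
    (fun k hk p hp n H E χ _ _ _ t _ _ hj => by
      rw [vX_eq k hk] at hp
      have h1 := zip_map_mem vJ _ p hp
      have h2 : p.2 = 4277064 * (15 - W6.pop p.1) := by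
        rw [h1]
        show 4277064 * (15 - popG p.1) = _
        rw [popG_eq]
      unfold Yf
      rw [S4_jc, hj, h2]
      push_cast
      omega)
    mlC
    (fun b hb n _ E χ hE hC t ht hx => gmask b hb E χ hE hC t ht hx)
    wf 176160768 778567680 hu hA cks n H E χ hE hH hC t ht
  have e0 : C.L.tot R.W H E χ t = 0 := tot0 H E χ t
  have e1 : tlS R.W C.T H E χ t = symE (eO1.f 32) H E χ t := by
    show symE (eO1.f 32) H E χ t + 0 = _
    rw [add_zero]
  rw [e0, e1] at h
  linarith

end Pool.Agent.Lib.MP_afdd4d_co.K9.PE
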