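import Pool.Agent.Lib.MP_afdd4d_co.K9.PE.Fin
import Pool.Agent.Lib.MP_afdd4d_co.K9.TwGir
import Pool.Agent.Lib.MP_afdd4d_co.K9.SumO5

/-!
# 4-graphs without `K_5` whose nearest even 4-graph is a reference structure

The theorem.
-/

namespace Pool.Agent.Lib.MP_afdd4d_co.K9.PE

open Finset K8 W6
open Pool.Agent.Lib.MP_afdd4d_co.K9.Star
open Pool.Agent.Lib.MP_afdd4d_co.K9.Star.Tw

theorem wsum {n : ℕ} (H E : Finset (Finset (Fin n))) (t : Fin 6 → Fin n) :
    ∑ q ∈ range 6, wf (cnt H t q) (cnt E t q) =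
      10842240 * ((O5 (zb H t) 1 : ℤ) + O5 (zb H t) 3) + 25165824 * S4 (zb H t) +
        50331648 * S4 (zb E t) := by
  have h1 := sum_cnt H t
  have h2 := sum_cnt E t
  rw [O5_cnt, O5_cnt]
  unfold wf
  rw [Finset.sum_add_distrib, Finset.sum_add_distrib, ← Finset.mul_sum, ← Finset.mul_sum,
    ← Finset.mul_sum, Finset.sum_add_distrib, h1, h2]
  ring

/-- The terms. -/
noncomputable def Zf : Fn3 := fun H E χ t =>
  KS D B H E χ t + 24 * symE (eO1.f 32) H E χ t + 2168448 * colC 1 1 (zb H t) (zb E t)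

/-- The terms have almost nonnegative averages. -/
theorem good_Z : GoodP (CtNX IsGir) (fun H E χ t => Zf H E χ t) := by
  have h1 : GoodP (CtNX IsGir) (fun H E χ t => KS D B H E χ t) := goodP_KS D B dOK bOK
  have h2 : GoodP (CtNX IsGir) (fun H E χ t => symE (eO1.f 32) H E χ t) :=
    GoodP.sym (goodP_o1 (optC3_CtN IsGir) eO1 32 (by decide +kernel))
  have h3 : GoodP (CtNX IsGir) (fun H E _ t => colC 1 1 (zb H t) (zb E t)) :=
    goodP_cost sumO5 fun _ _ _ hc => ⟨hc.h4, hc.k5, hc.o⟩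
  exact (h1.add (h2.smul 24)).add (h3.smul 2168448)

/-- The theorem: for a 4-graph without `K_5` whose nearest even 4-graph is a reference structure,
the distance to it is paid for by the densities of the two. -/
theorem main0 : ∀ ε : ℝ, 0 < ε → ∃ N0 : ℕ, ∀ n : ℕ, N0 ≤ n → ∀ (H : Finset (Finset (Fin n)))
      (χ : Fin n → Bool) (M : Fin n → Fin n → Bool),
      (∀ e ∈ H, e.card = 4) →
      (∀ S : Finset (Fin n), S.card = 5 → ∃ e ∈ S.powersetCard 4, e ∉ H) →
      (∀ E' : Finset (Finset (Fin n)), (∀ e ∈ E', e.card = 4) → EvenH n E' →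
        (symmDiff H (gir χ M (fun _ => false) (fun _ => false))).card ≤ (symmDiff H E').card) →
      (H.card : ℝ) + (1 / 421 : ℝ) *
          ((symmDiff H (gir χ M (fun _ => false) (fun _ => false))).card : ℝ) ≤
        ((11 / 16 : ℝ) + ε) * ((n.choose 4 : ℕ) : ℝ) +
          2 * ((11 / 16 : ℝ) * ((n.choose 4 : ℕ) : ℝ) -
            ((gir χ M (fun _ => false) (fun _ => false)).card : ℝ)) := by
  intro ε hε
  obtain ⟨N0, hN0⟩ := prodGZ (R := IsGir) 1572864 3145728 59832 (by norm_num) Zf good_Z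
    (fun {n} H E χ hc t ht => by
      have hC : ExG n E χ := by
        obtain ⟨M, rfl⟩ := hc.r
        exact exG_gir χ M
      have h5 := rows_E n H E χ hc.o.2.1 hc.k5 hC t ht
      rw [wsum] at h5
      unfold Yf at h5
      unfold Zf colC
      rw [cw_S4]
      push_cast
      linarith) ε hε
  refine ⟨N0, fun n hn H χ M hH hK hopt => ?_⟩
  have h1 := hN0 n hn H (gir χ M (fun _ => false) (fun _ => false)) χ hH hK (gir_card _ _ _ _)
    (evenH_gir _ _ _ _) hopt ⟨M, rfl⟩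
  have h2 : (0 : ℝ) ≤ ((symmDiff H (gir χ M (fun _ => false) (fun _ => false))).card : ℝ) :=
    Nat.cast_nonneg _
  have h3 : (1 / 421 : ℝ) ≤ ((59832 : ℕ) : ℝ) / (16 * ((1572864 : ℕ) : ℝ)) := by norm_num
  have h4 := mul_le_mul_of_nonneg_right h3 h2
  have h5 : ((3145728 : ℕ) : ℝ) / ((1572864 : ℕ) : ℝ) = 2 := by norm_num
  rw [h5] at h1
  linarith

/-- The theorem in terms of Giraud's families. -/
theorem main : ∀ ε : ℝ, 0 < ε → ∃ N0 : ℕ, ∀ n : ℕ, N0 ≤ n → ∀ (H : Finset (Finset (Fin n)))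
      (χ : Fin n → Bool) (M : Fin n → Fin n → Bool),
      (∀ e ∈ H, e.card = 4) →
      (∀ S : Finset (Fin n), S.card = 5 → ∃ e ∈ S.powersetCard 4, e ∉ H) →
      (∀ E : Finset (Finset (Fin n)), (∀ e ∈ E, e.card = 4) →
        (∀ S : Finset (Fin n), S.card = 5 →
          Even ((S.powersetCard 4).filter fun e => e ∈ E).card) →
        (symmDiff H (MC.Gir χ M)).card ≤ (symmDiff H E).card) →
      (H.card : ℝ) + (1 / 421 : ℝ) * ((symmDiff H (MC.Gir χ M)).card : ℝ) ≤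
        ((11 / 16 : ℝ) + ε) * ((n.choose 4 : ℕ) : ℝ) +
          2 * ((11 / 16 : ℝ) * ((n.choose 4 : ℕ) : ℝ) - ((MC.Gir χ M).card : ℝ)) :=
  prodE_Gir main0

end Pool.Agent.Lib.MP_afdd4d_co.K9.PE
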