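import Pool.Agent.Lib.MP_afdd4d_co.K9.W6Rc
import Pool.Agent.Lib.MP_afdd4d_co.K9.W6PT
import Pool.Agent.Lib.MP_afdd4d_co.K9.W6Gmk
import Pool.Agent.Lib.MP_afdd4d_co.K9.PE.O1
import Pool.Agent.Lib.MP_afdd4d_co.K9.PE.Dat

/-!
# The data of the rows
-/

namespace Pool.Agent.Lib.MP_afdd4d_co.K9.PE

open Finset K8 W6
open Pool.Agent.Lib.MP_afdd4d_co.K9.Star

/-- The value of a difference. -/
def vJ (c : ℕ) : ℕ := Nat.mul 4277064 (Nat.sub 15 (popG c))

/-- The data of the terms without colours. -/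
def L0 : LD := ⟨pt6, [], [], [], 0, 0, [], []⟩

/-- The data of the rows. -/
def C : RC where
  L := L0
  T := [eO1]
  mL := gmL
  K := 29
  PA := []
  A := [2290421448, 2529429768, 2530627272, 2507325192, 2530627272, 2529429768, 2290421448]
  vX := (List.range 160).map fun k => (rX k).map vJ

end Pool.Agent.Lib.MP_afdd4d_co.K9.PE
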